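import Pool.Agent.H.MP_993768_co.E

namespace Pool.Agent.Results.MP_993768_co.No

open Pool.Agent.H.MP_993768_co

theorem result : ∃ (P Q : Pt 3) (φ : Flag P.C) (ψ : Flag Q.C) (R S : Pt 4),
    (Amalg P Q R ∧ Rooted P Q φ ψ R) ∧ (Amalg P Q S ∧ Rooted P Q φ ψ S) ∧
      ∀ U : Pt 4, Amalg P Q U → ¬ (Covers U R ∧ Covers U S) := by
  obtain ⟨φ, p⟩ := (Dt.pre (d := dP)).fl (Dt.tu (a := 22) (by decide))
  obtain ⟨ψ, q⟩ := (Dt.pre (d := dQ)).fl (Dt.tu (a := 14) (by decide))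
  exact ⟨pt dP 3 rfl, pt dQ 3 rfl, φ, ψ, pt dR 4 rfl, pt dS 4 rfl, ra_dR.main rfl rfl rfl p q,
    ra_dS.main rfl rfl rfl p q, nope⟩

end Pool.Agent.Results.MP_993768_co.No
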